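import Pool.Agent.H206R2.OneVar.F

/-!
Relations `P(x) Λ = Q(x) M` where `x = e ^ α` (or a logarithm), `P`, `Q` are polynomials in one
variable with algebraic coefficients and `Λ`, `M` are linear forms in `1` and logarithms of
algebraic numbers, with algebraic coefficients.
-/

set_option autoImplicit false

namespace Pool.Agent.Results.MP_c82530_nt.LinearInLogs

open Pool.Agent.H301R2.SSE Pool.Agent.H301R2.Nine Pool.Agent.H206R2.Tower Polynomial
open Pool.Agent.H206R2.OneVar (poles2 poles3)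

/-- the field of algebraic numbers -/
noncomputable abbrev Qb : IntermediateField ℚ ℂ := algebraicClosure ℚ ℂ

/-- `z` is a linear form in `1` and logarithms of algebraic numbers, with algebraic coefficients -/
def LogForm (z : ℂ) : Prop :=
  ∃ (n : ℕ) (b : ℂ) (β ℓ : Fin n → ℂ), IsAlgebraic ℚ b ∧ (∀ j, IsAlgebraic ℚ (β j)) ∧
    (∀ j, IsAlgebraic ℚ (Complex.exp (ℓ j))) ∧ z = b + ∑ j, β j * ℓ j

theorem LogForm.mem {z : ℂ} (h : LogForm z) : z ∈ Lt := by
  obtain ⟨n, b, β, ℓ, hb, hβ, hℓ, rfl⟩ := h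
  exact Lt.add_mem (Lt_alg hb) (Lt.sum_mem (fun j _ => Lt_mul (hβ j) (Lt_log (hℓ j))))

/-- `x` is `e ^ α` with `α ≠ 0` algebraic, or a nonzero logarithm of an algebraic number -/
def ExpOrLog (x : ℂ) : Prop :=
  (∃ α : ℂ, IsAlgebraic ℚ α ∧ α ≠ 0 ∧ x = Complex.exp α) ∨
    (x ≠ 0 ∧ IsAlgebraic ℚ (Complex.exp x))

theorem ExpOrLog.tr {x : ℂ} (h : ExpOrLog x) : ¬ IsAlgebraic ℚ x := by
  rcases h with ⟨α, hα, h0, rfl⟩ | ⟨h0, h⟩
  · exact Pool.Agent.H340R2.LW.transcendental_cexp α hα h0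
  · exact tr_of_LB (LB_log h) h0

instance : Algebra.IsAlgebraic ℚ Qb := algebraicClosure.isAlgebraic ℚ ℂ

theorem poly_ne {x : ℂ} (hx : ¬ IsAlgebraic ℚ x) {P : Qb[X]} (hP : P ≠ 0) : aeval x P ≠ 0 := by
  intro h
  apply hx
  have h1 : IsAlgebraic Qb x := ⟨P, hP, h⟩
  exact h1.restrictScalars ℚ

theorem ratio_tr {x : ℂ} (hx : ¬ IsAlgebraic ℚ x) {P Q : Qb[X]}
    (hPQ : LinearIndependent Qb ![P, Q]) : ¬ IsAlgebraic ℚ (aeval x P / aeval x Q) := by
  rw [LinearIndependent.pair_iff] at hPQ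
  have hQ : Q ≠ 0 := by
    rintro rfl
    have := (hPQ 0 1 (by simp)).2
    exact one_ne_zero this
  have hQx := poly_ne hx hQ
  intro h
  let a : Qb := ⟨aeval x P / aeval x Q, mem_QB.mpr h⟩
  have h1 : aeval x (P - C a * Q) = 0 := by
    rw [map_sub, map_mul, aeval_C]
    change aeval x P - (aeval x P / aeval x Q) * aeval x Q = 0
    rw [div_mul_cancel₀ _ hQx, sub_self]
  have h2 : P - C a * Q = 0 := by
    by_contra hne
    exact poly_ne hx hne h1
  have h3 := (hPQ 1 (-a) (by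
    rw [one_smul, neg_smul, ← C_mul', ← sub_eq_add_neg]
    exact h2)).1
  exact one_ne_zero h3

/-- the value of `P` at `x` -/
noncomputable def ev (P : Qb[X]) (x : ℂ) : ℂ := aeval x P

/-- `P` and `Q` are linearly independent over the algebraic numbers -/
def Indep (P Q : Qb[X]) : Prop := LinearIndependent Qb ![P, Q]

/-- `Λ` is a linear form in `1` and logarithms with `P(x) Λ = Q(x) M` for another such form `M` -/
def Rel (P Q : Qb[X]) (x Λ : ℂ) : Prop := LogForm Λ ∧ ∃ M, LogForm M ∧ ev P x * Λ = ev Q x * M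

/-- the algebraic `a` such that `1 / (t - a)` is a linear form in `1` and logarithms -/
def poles (t : ℂ) : Set ℂ := {a : ℂ | IsAlgebraic ℚ a ∧ LogForm (1 / (t - a))}

/-- linear dependence over the algebraic numbers -/
def Dependent (u v w : ℂ) : Prop :=
  ∃ a b c : ℂ, IsAlgebraic ℚ a ∧ IsAlgebraic ℚ b ∧ IsAlgebraic ℚ c ∧ ¬ (a = 0 ∧ b = 0 ∧ c = 0) ∧
    a * u + b * v + c * w = 0

theorem dep {t u v w : ℂ} (ht : ¬ IsAlgebraic ℚ t) (hu : u ∈ Lt) (hv : v ∈ Lt) (hw : w ∈ Lt)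
    (hu' : t * u ∈ Lt) (hv' : t * v ∈ Lt) (hw' : t * w ∈ Lt) : Dependent u v w := by
  by_contra hcon
  refine six' 1 t u v w (fun a b ha hb h => lin_of_tr ht ha hb (by linear_combination h)) ?_
    (by rwa [one_mul]) (by rwa [one_mul]) (by rwa [one_mul]) hu' hv' hw'
  intro a b c ha hb hc h
  by_contra hne
  exact hcon ⟨a, b, c, ha, hb, hc, hne, h⟩

theorem le_two {t : ℂ} (ht : ¬ IsAlgebraic ℚ t) :
    (poles t).encard ≤ 2 := by
  by_contra hcon
  rw [not_le] at hcon
  have h3 : (3 : ℕ∞) ≤ (poles t).encard := by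
    have h1 := Order.add_one_le_of_lt hcon
    have h2 : (2 : ℕ∞) + 1 = 3 := by norm_num
    rwa [h2] at h1
  obtain ⟨s, hs, hcard⟩ := Set.exists_subset_encard_eq h3
  obtain ⟨a, b, c, hab, hac, hbc, rfl⟩ := Set.encard_eq_three.mp hcard
  have ha := hs (show a ∈ ({a, b, c} : Set ℂ) by simp)
  have hb := hs (show b ∈ ({a, b, c} : Set ℂ) by simp)
  have hc := hs (show c ∈ ({a, b, c} : Set ℂ) by simp)
  exact poles3 ht ha.1 hb.1 hc.1 hab hac hbc ha.2.mem hb.2.mem hc.2.mem

theorem le_one {t : ℂ} (ht : ¬ IsAlgebraic ℚ t) (hm : t ∈ Lt) :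
    (poles t).encard ≤ 1 := by
  rw [Set.encard_le_one_iff]
  intro a b ha hb
  by_contra hab
  exact poles2 ht ha.1 hb.1 hab hm ha.2.mem hb.2.mem

/-- Let `x` be `e ^ α` with `α ≠ 0` algebraic, or a nonzero logarithm of an algebraic number, and
let `P`, `Q` be polynomials with algebraic coefficients, linearly independent over the algebraic
numbers. The linear forms `Λ` in `1` and logarithms, with algebraic coefficients, for which
`P(x) Λ = Q(x) M` for another such form `M` span a space of dimension at most two; the number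
`1 / (P(x)/Q(x) - a)` is such a form for at most two algebraic `a`, and for at most one if
`P(x)/Q(x)` is such a form. -/
theorem result (x : ℂ) (hx : ExpOrLog x) (P Q : Qb[X]) (hPQ : Indep P Q) :
    (∀ u v w : ℂ, Rel P Q x u → Rel P Q x v → Rel P Q x w → Dependent u v w) ∧
    (poles (ev P x / ev Q x)).encard ≤ 2 ∧
    (LogForm (ev P x / ev Q x) → (poles (ev P x / ev Q x)).encard ≤ 1) := by
  have hxt := hx.tr
  have ht := ratio_tr hxt hPQ
  have hQ : Q ≠ 0 := by
    rintro rfl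
    rw [Indep, LinearIndependent.pair_iff] at hPQ
    have := (hPQ 0 1 (by simp)).2
    exact one_ne_zero this
  have hQx := poly_ne hxt hQ
  have key : ∀ u u' : ℂ, ev P x * u = ev Q x * u' → aeval x P / aeval x Q * u = u' := by
    intro u u' h
    unfold ev at h
    rw [div_mul_eq_mul_div, div_eq_iff hQx, h, mul_comm]
  refine ⟨?_, le_two ht, fun h => le_one ht h.mem⟩
  rintro u v w ⟨hu, u', hu', e1⟩ ⟨hv, v', hv', e2⟩ ⟨hw, w', hw', e3⟩
  refine dep ht hu.mem hv.mem hw.mem ?_ ?_ ?_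
  · rw [key u u' e1]; exact hu'.mem
  · rw [key v v' e2]; exact hv'.mem
  · rw [key w w' e3]; exact hw'.mem

end Pool.Agent.Results.MP_c82530_nt.LinearInLogs
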