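import Mathlib
import Pool.Agent.H422R2.LP.ZFin

/-!
# Monomials of degree at most two in `log 2` and `log(-1) = π i`

The five monomials `1, X, Y, XY, Y²` at the two logarithms `X = log 2`, `Y = log(-1) = π i` are linearly
independent over `ℚ` (the new part is that `1, log 2, π²` are linearly independent over `ℚ`). The proof uses
Hankel determinants of linear forms in `1, log 2, π²` (Abel sums of `(-1)^t R(t)` and `(-1)^t R'(t)`, simple poles,
full size), see `Pool/Agent/H422R2/LP`.
-/

namespace Pool.Agent.Results.MP_c82530_nt.LogTwoPi

/-- **Main result.** -/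
theorem result :
    LinearIndependent ℚ ![(1 : ℂ), Complex.log 2, Complex.log (-1),
      Complex.log 2 * Complex.log (-1), Complex.log (-1) ^ 2] :=
  Pool.Agent.LP.Z_quad

end Pool.Agent.Results.MP_c82530_nt.LogTwoPi
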