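import Mathlib
import Pool.Agent.H297R2.ThmJs

/-!
# Exponentials of algebraic numbers over the field generated by `log n`, for almost all `n`

Let `α_1, ..., α_s` be `ℚ`-linearly independent algebraic numbers. For every `D`, for almost all
positive integers `n`, the numbers `e^{α_1}, ..., e^{α_s}` satisfy no nonzero polynomial relation of
total degree `≤ D` over the field `ℚ̄(log n)`: there are no polynomials `P_0, ..., P_{N-1}` over `ℚ̄`
of total degree `≤ D`, not all zero, `N` arbitrary, with
`∑_j P_j(e^{α_1}, ..., e^{α_s}) (log n)^j = 0`.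
-/

namespace Pool.Agent.Results.MP_c82530_nt.OneSidedExponentials

open Pool.Agent.H297R2 Finset

open Classical in
/-- **Main result.** -/
theorem result (s D : ℕ) (α : Fin s → ℂ) (halg : ∀ i, IsAlgebraic ℚ (α i))
    (hα : LinearIndependent ℚ α) (ε : ℝ) (hε : 0 < ε) :
    ∃ x₀ : ℕ, ∀ x ≥ x₀,
      (((Finset.Icc 1 x).filter fun n : ℕ =>
        ∃ (N : ℕ) (P : Fin N → MvPolynomial (Fin s) (algebraicClosure ℚ ℂ)),
          (∃ j, P j ≠ 0) ∧ (∀ j, (P j).totalDegree ≤ D) ∧
          ∑ j, MvPolynomial.aeval (fun i => Complex.exp (α i)) (P j) *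
            (Real.log n : ℂ) ^ (j : ℕ) = 0).card : ℝ) ≤ ε * x := by
  obtain ⟨x₀, hx₀⟩ := thmJs (Fin s) D (fun i => Complex.exp (α i))
    (exp_algebraicIndependent α halg hα) ε hε
  refine ⟨x₀, fun x hx => hx₀ x hx _ ?_ ?_⟩
  · intro n hn
    rw [Finset.mem_filter, Finset.mem_Icc] at hn
    rw [Finset.mem_Ioc]
    omega
  · intro n hn
    rw [Finset.mem_filter] at hn
    obtain ⟨_, N, P, ⟨j₀, hj₀⟩, hPD, hP⟩ := hn
    set Q : Polynomial (MvPolynomial (Fin s) (algebraicClosure ℚ ℂ)) :=
      ∑ j : Fin N, Polynomial.monomial (j : ℕ) (P j) with hQ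
    have hcoef : ∀ j : Fin N, Q.coeff (j : ℕ) = P j := by
      intro j
      rw [hQ, Polynomial.finsetSum_coeff, Finset.sum_eq_single j]
      · rw [Polynomial.coeff_monomial, if_pos rfl]
      · intro j' _ hne
        rw [Polynomial.coeff_monomial, if_neg]
        intro h
        exact hne (Fin.ext h)
      · intro h; exact absurd (Finset.mem_univ _) h
    refine ⟨Q, ?_, ?_, ?_⟩
    · intro h0
      apply hj₀
      rw [← hcoef j₀, h0, Polynomial.coeff_zero]
    · intro j
      by_cases hj : j < N
      · have := hcoef ⟨j, hj⟩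
        simp only at this
        rw [this]
        exact hPD _
      · have : Q.coeff j = 0 := by
          rw [hQ, Polynomial.finsetSum_coeff]
          apply Finset.sum_eq_zero
          intro j' _
          rw [Polynomial.coeff_monomial, if_neg]
          intro h
          exact hj (h ▸ j'.isLt)
        rw [this, MvPolynomial.totalDegree_zero]
        exact Nat.zero_le _
    · unfold evQ
      rw [hQ, Polynomial.eval₂_finset_sum]
      rw [← hP]
      apply Finset.sum_congr rfl
      intro j _
      rw [Polynomial.eval₂_monomial]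
      rfl

end Pool.Agent.Results.MP_c82530_nt.OneSidedExponentials
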